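import Mathlib
import Pool.Agent.Helper30.CIR.Goals

/-!
# Project CIR, packet ORB (helper66): the integral inequality from the Moebius recursion
-/

set_option autoImplicit false

open Set Filter Topology MeasureTheory

open scoped ContDiff

namespace Pool.Agent.Helper66.CIR

open Pool.Agent.Helper56.RZ Pool.Agent.Helper30.CIR

theorem ee_add (s t : ℝ) : ee (s + t) = ee s * ee t := by
  unfold ee
  rw [← Complex.exp_add]
  congr 1
  push_cast
  ring

theorem norm_ee (t : ℝ) : ‖ee t‖ = 1 := by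
  unfold ee
  exact Complex.norm_exp_ofReal_mul_I _

theorem arg_aux (v : ℂ) :
    ((‖v‖ : ℂ) * Complex.exp (v.arg * Complex.I)).arg = v.arg := by
  rw [Complex.norm_mul_exp_arg_mul_I]

/-- `e^{-2 i arg v} = conj v / v` -/
theorem ee_arg (v : ℂ) (hv : v ≠ 0) :
    ee (-(v.arg / Real.pi)) = (starRingEnd ℂ) v / v := by
  have h1 : (v : ℂ) = (‖v‖ : ℂ) * Complex.exp (v.arg * Complex.I) :=
    (Complex.norm_mul_exp_arg_mul_I v).symm
  have h2 : (starRingEnd ℂ) v = (‖v‖ : ℂ) * Complex.exp (-(v.arg * Complex.I)) := by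
    conv_lhs => rw [h1]
    rw [map_mul, Complex.conj_ofReal, ← Complex.exp_conj, map_mul, Complex.conj_ofReal,
      Complex.conj_I, mul_neg]
  have h3 : (‖v‖ : ℂ) ≠ 0 := by
    rw [Ne, Complex.ofReal_eq_zero, norm_eq_zero]
    exact hv
  rw [eq_div_iff hv, h2]
  have h4 : ee (-(v.arg / Real.pi)) = Complex.exp (-(2 * (v.arg * Complex.I))) := by
    unfold ee
    congr 1
    have hpi : (Real.pi : ℂ) ≠ 0 := Complex.ofReal_ne_zero.2 Real.pi_ne_zero
    push_cast
    field_simp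
  rw [h4]
  conv_lhs => rw [h1]
  rw [arg_aux v]
  have h5 : Complex.exp (-(2 * (v.arg * Complex.I))) * Complex.exp (v.arg * Complex.I) =
      Complex.exp (-(v.arg * Complex.I)) := by
    rw [← Complex.exp_add]
    congr 1
    ring
  calc Complex.exp (-(2 * (v.arg * Complex.I))) * ((‖v‖ : ℂ) * Complex.exp (v.arg * Complex.I))
      = (‖v‖ : ℂ) * (Complex.exp (-(2 * (v.arg * Complex.I))) *
        Complex.exp (v.arg * Complex.I)) := by ring
    _ = _ := by rw [h5]

/-- the times -/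
noncomputable def sg {K : ℕ} (A : ℝ → E K → E K) (f : E K → E K) (F : E K → ℂ) (om c : ℝ)
    (x : E K) : ℕ → ℝ → ℝ
  | 0, τ => τ / om
  | k + 1, τ => sg A f F om c x k τ + τ / om + del c om F (A (sg A f F om c x k τ) (f^[k] x))

theorem orbit {K : ℕ} {s : WithTop ℕ∞} {M : Set (E K)} {A : ℝ → E K → E K} {f : E K → E K}
    {F : E K → ℂ} {om : ℝ} (c : ℝ) (hD : Data s M A F om) (hf : MapsTo f M M)
    (hc : Commutes M f A) {x : E K} (hx : x ∈ M) (τ : ℝ) (k : ℕ) :
    (gg f A c om (τ / om) F)^[k] (A (τ / om) x) =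
      A (sg A f F om c x k τ) (f^[k] x) := by
  induction k with
  | zero => rfl
  | succ k ih =>
    have hk : f^[k] x ∈ M := hf.iterate k hx
    rw [Function.iterate_succ_apply', ih, Function.iterate_succ_apply']
    show f (A (τ / om + del c om F (A (sg A f F om c x k τ) (f^[k] x)))
      (A (sg A f F om c x k τ) (f^[k] x))) = _
    rw [← hD.flow.add _ _ _ hk, hc _ _ hk]
    have e : τ / om + del c om F (A (sg A f F om c x k τ) (f^[k] x)) + sg A f F om c x k τ =
        sg A f F om c x (k + 1) τ := by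
      show _ = sg A f F om c x k τ + τ / om + del c om F (A (sg A f F om c x k τ) (f^[k] x))
      ring
    rw [e]

theorem eigen_ee {K : ℕ} {s : WithTop ℕ∞} {M : Set (E K)} {A : ℝ → E K → E K}
    {F : E K → ℂ} {om : ℝ} (hD : Data s M A F om) (t : ℝ) {y : E K} (hy : y ∈ M) :
    F (A t y) = ee (om * t) * F y := by
  rw [hD.eig.2 t y hy]
  unfold ee
  congr 3
  ring

theorem gORB : StmtMOB → Pool.Agent.Helper30.CIR.StmtORB := by
  intro hM K s M A f F om c hD hf hc h0 h1 x hx n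
  have hyM : ∀ k, f^[k] x ∈ M := fun k => hf.iterate k hx
  have hom : om ≠ 0 := hD.pos.ne'
  -- the data of MOB
  let a : ℕ → ℂ := fun k => (c : ℂ) * F (f^[k] x)
  let w : ℕ → ℝ → ℂ := fun k τ => ee (om * sg A f F om c x k τ)
  have ha : ∀ k, ‖a k‖ = c * ‖F (f^[k] x)‖ := by
    intro k
    show ‖(c : ℂ) * F (f^[k] x)‖ = _
    rw [norm_mul, Complex.norm_real, Real.norm_of_nonneg h0]
  have haF : ∀ k, ‖F (f^[k] x)‖ ≤ 1 := fun k => hD.le1 _ (hyM k)
  have ha2 : ∀ k, ‖a k‖ ≤ 1 / 2 := by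
    intro k
    rw [ha k]
    calc c * ‖F (f^[k] x)‖ ≤ c * 1 := mul_le_mul_of_nonneg_left (haF k) h0
      _ ≤ 1 / 2 := by rw [mul_one]; exact h1
  have hw1 : ∀ k τ, ‖w k τ‖ = 1 := fun k τ => norm_ee _
  have haw : ∀ k τ, ‖a k * w k τ‖ ≤ 1 / 2 := by
    intro k τ
    rw [norm_mul, hw1, mul_one]
    exact ha2 k
  have hne : ∀ k τ, 1 + a k * w k τ ≠ 0 := by
    intro k τ h
    have h2 : a k * w k τ = -1 := by linear_combination h
    have h3 := haw k τ
    rw [h2, norm_neg, norm_one] at h3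
    norm_num at h3
  have hFw : ∀ k τ, F (A (sg A f F om c x k τ) (f^[k] x)) = w k τ * F (f^[k] x) :=
    fun k τ => eigen_ee hD _ (hyM k)
  have hcF : ∀ k τ, (c : ℂ) * F (A (sg A f F om c x k τ) (f^[k] x)) = a k * w k τ := by
    intro k τ
    rw [hFw]
    show _ = (c : ℂ) * F (f^[k] x) * w k τ
    ring
  have hw0 : ∀ τ, w 0 τ = ee τ := by
    intro τ
    show ee (om * (τ / om)) = ee τ
    rw [mul_div_cancel₀ _ hom]
  have hws : ∀ k τ, w (k + 1) τ =
      ee τ * (w k τ + (starRingEnd ℂ) (a k)) / (1 + a k * w k τ) := by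
    intro k τ
    have e1 : om * sg A f F om c x (k + 1) τ =
        om * sg A f F om c x k τ + (τ + -((1 + a k * w k τ).arg / Real.pi)) := by
      show om * (sg A f F om c x k τ + τ / om +
        del c om F (A (sg A f F om c x k τ) (f^[k] x))) = _
      unfold del
      rw [hcF]
      have hpi : Real.pi ≠ 0 := Real.pi_ne_zero
      field_simp
      ring
    show ee (om * sg A f F om c x (k + 1) τ) = _
    rw [e1, ee_add, ee_add, ee_arg _ (hne k τ)]
    have hconj : w k τ * (starRingEnd ℂ) (w k τ) = 1 := by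
      rw [Complex.mul_conj, Complex.normSq_eq_norm_sq, hw1, one_pow, Complex.ofReal_one]
    have e2 : w k τ * (starRingEnd ℂ) (1 + a k * w k τ) = w k τ + (starRingEnd ℂ) (a k) := by
      rw [map_add, map_one, map_mul]
      linear_combination (starRingEnd ℂ) (a k) * hconj
    show w k τ * (ee τ * ((starRingEnd ℂ) (1 + a k * w k τ) / (1 + a k * w k τ))) = _
    rw [← e2]
    ring
  obtain ⟨-, hcont, hint⟩ := hM a ha2 w hw0 hws
  -- the logarithms
  have hkap : ∀ k τ, Real.log (kap c F ((gg f A c om (τ / om) F)^[k] (A (τ / om) x))) =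
      Real.log (1 - c ^ 2 * ‖F (f^[k] x)‖ ^ 2) - 2 * Real.log ‖1 + a k * w k τ‖ := by
    intro k τ
    rw [orbit c hD hf hc hx τ k]
    unfold kap
    rw [hcF, hFw, norm_mul, hw1, one_mul]
    have h4 : c ^ 2 * ‖F (f^[k] x)‖ ^ 2 ≤ 1 / 4 := by
      have h5 := ha2 k
      rw [ha k] at h5
      have h6 : 0 ≤ c * ‖F (f^[k] x)‖ := mul_nonneg h0 (norm_nonneg _)
      calc c ^ 2 * ‖F (f^[k] x)‖ ^ 2 = (c * ‖F (f^[k] x)‖) ^ 2 := by ring
        _ ≤ (1 / 2) ^ 2 := pow_le_pow_left₀ h6 h5 2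
        _ = 1 / 4 := by norm_num
    have h7 : 1 - c ^ 2 * ‖F (f^[k] x)‖ ^ 2 ≠ 0 := by
      have : 0 < 1 - c ^ 2 * ‖F (f^[k] x)‖ ^ 2 := by linarith
      exact this.ne'
    have h8 : ‖1 + a k * w k τ‖ ^ 2 ≠ 0 := pow_ne_zero 2 (norm_ne_zero_iff.2 (hne k τ))
    rw [Real.log_div h7 h8, Real.log_pow]
    push_cast
    ring
  have hlc : Continuous (fun τ => ∑ k ∈ Finset.range n, Real.log ‖1 + a k * w k τ‖) := by
    refine continuous_finsetSum _ fun k _ => ?_
    exact ((continuous_const.add (continuous_const.mul (hcont k))).norm).log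
      (fun τ => norm_ne_zero_iff.2 (hne k τ))
  have hsum : (fun τ => ∑ k ∈ Finset.range n,
      Real.log (kap c F ((gg f A c om (τ / om) F)^[k] (A (τ / om) x)))) =
      fun τ => (∑ k ∈ Finset.range n, Real.log (1 - c ^ 2 * ‖F (f^[k] x)‖ ^ 2)) -
        2 * ∑ k ∈ Finset.range n, Real.log ‖1 + a k * w k τ‖ := by
    funext τ
    rw [Finset.mul_sum, ← Finset.sum_sub_distrib]
    exact Finset.sum_congr rfl fun k _ => hkap k τ
  have hl2 : Continuous (fun τ => 2 * ∑ k ∈ Finset.range n, Real.log ‖1 + a k * w k τ‖) :=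
    continuous_const.mul hlc
  rw [hsum, intervalIntegral.integral_sub (continuous_const.intervalIntegrable _ _)
    (hl2.intervalIntegrable _ _), intervalIntegral.integral_const,
    intervalIntegral.integral_const_mul]
  have h9 := hint n
  have h10 : ∑ k ∈ Finset.range n, Real.log (1 - c ^ 2 * ‖F (f^[k] x)‖ ^ 2) ≤
      -(c ^ 2 * ∑ k ∈ Finset.range n, ‖F (f^[k] x)‖ ^ 2) := by
    rw [Finset.mul_sum, ← Finset.sum_neg_distrib]
    refine Finset.sum_le_sum fun k _ => ?_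
    have h4 : c ^ 2 * ‖F (f^[k] x)‖ ^ 2 ≤ 1 / 4 := by
      have h5 := ha2 k
      rw [ha k] at h5
      have h6 : 0 ≤ c * ‖F (f^[k] x)‖ := mul_nonneg h0 (norm_nonneg _)
      calc c ^ 2 * ‖F (f^[k] x)‖ ^ 2 = (c * ‖F (f^[k] x)‖) ^ 2 := by ring
        _ ≤ (1 / 2) ^ 2 := pow_le_pow_left₀ h6 h5 2
        _ = 1 / 4 := by norm_num
    have h11 := Real.log_le_sub_one_of_pos (x := 1 - c ^ 2 * ‖F (f^[k] x)‖ ^ 2) (by linarith)
    linarith
  rw [sub_zero, one_smul]
  linarith

end Pool.Agent.Helper66.CIR
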